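import Pool.Agent.Helper73.HM.St

/-! # HM module TC: codes of formulas are definable -/

namespace Pool.Agent.Helper77.HM.TC

open Ordinal Cardinal ZFSet Order Pool.Agent.Helper73.HODC Pool.Agent.Helper73.HE
  Pool.Agent.Helper73.HM

theorem nz_inj {m n : ℕ} (h : nz m = nz n) : m = n := by
  have h1 := toZFSet_injective h
  exact_mod_cast h1

theorem rank_nz (n : ℕ) : (nz n).rank = n := rank_toZFSet _

theorem code_inj : ∀ φ ψ : Fm, code φ = code ψ → φ = ψ := by
  intro φ
  induction φ with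
  | mem i j =>
    intro ψ h
    cases ψ with
    | mem i' j' =>
      simp only [code] at h
      have h1 := (pair_inj.1 h).2
      have h2 := pair_inj.1 h1
      rw [nz_inj h2.1, nz_inj h2.2]
    | eq _ _ => simp only [code] at h; exact absurd (nz_inj (pair_inj.1 h).1) (by norm_num)
    | neg _ => simp only [code] at h; exact absurd (nz_inj (pair_inj.1 h).1) (by norm_num)
    | and _ _ => simp only [code] at h; exact absurd (nz_inj (pair_inj.1 h).1) (by norm_num)
    | all _ => simp only [code] at h; exact absurd (nz_inj (pair_inj.1 h).1) (by norm_num)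
  | eq i j =>
    intro ψ h
    cases ψ with
    | eq i' j' =>
      simp only [code] at h
      have h1 := (pair_inj.1 h).2
      have h2 := pair_inj.1 h1
      rw [nz_inj h2.1, nz_inj h2.2]
    | mem _ _ => simp only [code] at h; exact absurd (nz_inj (pair_inj.1 h).1) (by norm_num)
    | neg _ => simp only [code] at h; exact absurd (nz_inj (pair_inj.1 h).1) (by norm_num)
    | and _ _ => simp only [code] at h; exact absurd (nz_inj (pair_inj.1 h).1) (by norm_num)
    | all _ => simp only [code] at h; exact absurd (nz_inj (pair_inj.1 h).1) (by norm_num)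
  | neg φ ih =>
    intro ψ h
    cases ψ with
    | neg ψ =>
      simp only [code] at h
      rw [ih ψ (pair_inj.1 h).2]
    | mem _ _ => simp only [code] at h; exact absurd (nz_inj (pair_inj.1 h).1) (by norm_num)
    | eq _ _ => simp only [code] at h; exact absurd (nz_inj (pair_inj.1 h).1) (by norm_num)
    | and _ _ => simp only [code] at h; exact absurd (nz_inj (pair_inj.1 h).1) (by norm_num)
    | all _ => simp only [code] at h; exact absurd (nz_inj (pair_inj.1 h).1) (by norm_num)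
  | and φ χ ih1 ih2 =>
    intro ψ h
    cases ψ with
    | and ψ ψ' =>
      simp only [code] at h
      have h1 := (pair_inj.1 h).2
      have h2 := pair_inj.1 h1
      rw [ih1 ψ h2.1, ih2 ψ' h2.2]
    | mem _ _ => simp only [code] at h; exact absurd (nz_inj (pair_inj.1 h).1) (by norm_num)
    | eq _ _ => simp only [code] at h; exact absurd (nz_inj (pair_inj.1 h).1) (by norm_num)
    | neg _ => simp only [code] at h; exact absurd (nz_inj (pair_inj.1 h).1) (by norm_num)
    | all _ => simp only [code] at h; exact absurd (nz_inj (pair_inj.1 h).1) (by norm_num)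
  | all φ ih =>
    intro ψ h
    cases ψ with
    | all ψ =>
      simp only [code] at h
      rw [ih ψ (pair_inj.1 h).2]
    | mem _ _ => simp only [code] at h; exact absurd (nz_inj (pair_inj.1 h).1) (by norm_num)
    | eq _ _ => simp only [code] at h; exact absurd (nz_inj (pair_inj.1 h).1) (by norm_num)
    | neg _ => simp only [code] at h; exact absurd (nz_inj (pair_inj.1 h).1) (by norm_num)
    | and _ _ => simp only [code] at h; exact absurd (nz_inj (pair_inj.1 h).1) (by norm_num)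

theorem rank_lt_pair_left (x y : ZFSet.{0}) : x.rank < (ZFSet.pair x y).rank := by
  have h1 : x ∈ ({x} : ZFSet.{0}) := ZFSet.mem_singleton.2 rfl
  have h2 : ({x} : ZFSet.{0}) ∈ ZFSet.pair x y := by
    rw [ZFSet.pair, ZFSet.mem_pair]; exact Or.inl rfl
  exact (rank_lt_of_mem h1).trans (rank_lt_of_mem h2)

theorem rank_lt_pair_right (x y : ZFSet.{0}) : y.rank < (ZFSet.pair x y).rank := by
  have h1 : y ∈ ({x, y} : ZFSet.{0}) := by rw [ZFSet.mem_pair]; exact Or.inr rfl
  have h2 : ({x, y} : ZFSet.{0}) ∈ ZFSet.pair x y := by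
    rw [ZFSet.pair, ZFSet.mem_pair]; exact Or.inr rfl
  exact (rank_lt_of_mem h1).trans (rank_lt_of_mem h2)

theorem rank_pair_lt_omega {x y : ZFSet.{0}} (hx : x.rank < ω) (hy : y.rank < ω) :
    (ZFSet.pair x y).rank < ω := by
  rw [ZFSet.pair]
  simp only [rank_pair, rank_singleton]
  have hs : ∀ a : Ordinal.{0}, a < ω → Order.succ a < ω := fun a ha => by
    obtain ⟨n, rfl⟩ := Ordinal.lt_omega0.1 ha
    have h := Ordinal.natCast_lt_omega0 (n + 1)
    rw [Nat.cast_succ, ← Order.succ_eq_add_one] at h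
    exact h
  refine max_lt (hs _ (hs _ hx)) (hs _ (max_lt (hs _ hx) (hs _ hy)))

theorem rank_code_lt (φ : Fm) : (code φ).rank < ω := by
  have hz : ∀ n : ℕ, (nz n).rank < ω := fun n => by
    rw [rank_nz]; exact Ordinal.natCast_lt_omega0 n
  induction φ with
  | mem i j => exact rank_pair_lt_omega (hz _) (rank_pair_lt_omega (hz _) (hz _))
  | eq i j => exact rank_pair_lt_omega (hz _) (rank_pair_lt_omega (hz _) (hz _))
  | neg φ ih => exact rank_pair_lt_omega (hz _) ih
  | and φ ψ ih1 ih2 => exact rank_pair_lt_omega (hz _) (rank_pair_lt_omega ih1 ih2)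
  | all φ ih => exact rank_pair_lt_omega (hz _) ih

theorem fin_lt (N : ℕ) : {φ : Fm | (code φ).rank < N}.Finite := by
  induction N with
  | zero =>
    refine Set.Finite.subset Set.finite_empty ?_
    intro φ hφ
    simp only [Set.mem_ofPred_eq, Nat.cast_zero] at hφ
    exact absurd hφ not_lt_zero
  | succ N ih =>
    have hfin : (((fun p : ℕ × ℕ => Fm.mem p.1 p.2) '' ((Set.Iio N) ×ˢ (Set.Iio N))) ∪
        ((fun p : ℕ × ℕ => Fm.eq p.1 p.2) '' ((Set.Iio N) ×ˢ (Set.Iio N))) ∪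
        (Fm.neg '' {φ : Fm | (code φ).rank < N}) ∪
        ((fun p : Fm × Fm => Fm.and p.1 p.2) ''
          ({φ : Fm | (code φ).rank < N} ×ˢ {φ : Fm | (code φ).rank < N})) ∪
        (Fm.all '' {φ : Fm | (code φ).rank < N})).Finite := by
      have h1 : ((Set.Iio N) ×ˢ (Set.Iio N) : Set (ℕ × ℕ)).Finite :=
        (Set.finite_Iio N).prod (Set.finite_Iio N)
      exact ((((h1.image _).union (h1.image _)).union (ih.image _)).union
        ((ih.prod ih).image _)).union (ih.image _)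
    refine hfin.subset ?_
    have hlt : ∀ x y : Ordinal.{0}, x < y → y < ((N + 1 : ℕ) : Ordinal.{0}) → x < N := by
      intro x y hxy hy
      rw [Nat.cast_succ] at hy
      exact lt_of_lt_of_le hxy (Order.lt_add_one_iff.mp hy)
    have hN : ∀ i : ℕ, (nz i).rank < (N : Ordinal.{0}) → i < N := fun i hi => by
      rw [rank_nz] at hi
      exact_mod_cast hi
    intro φ hφ
    simp only [Set.mem_ofPred_eq] at hφ
    cases φ with
    | mem i j =>
      left; left; left; left
      have h1 := hlt _ _ (rank_lt_pair_right _ _) hφ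
      exact ⟨(i, j), ⟨hN i ((rank_lt_pair_left _ _).trans h1),
        hN j ((rank_lt_pair_right _ _).trans h1)⟩, rfl⟩
    | eq i j =>
      left; left; left; right
      have h1 := hlt _ _ (rank_lt_pair_right _ _) hφ
      exact ⟨(i, j), ⟨hN i ((rank_lt_pair_left _ _).trans h1),
        hN j ((rank_lt_pair_right _ _).trans h1)⟩, rfl⟩
    | neg φ =>
      left; left; right
      exact ⟨φ, hlt _ _ (rank_lt_pair_right _ _) hφ, rfl⟩
    | and φ ψ =>
      left; right
      have h1 := hlt _ _ (rank_lt_pair_right _ _) hφ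
      exact ⟨(φ, ψ), ⟨(rank_lt_pair_left _ _).trans h1, (rank_lt_pair_right _ _).trans h1⟩, rfl⟩
    | all φ =>
      right
      exact ⟨φ, hlt _ _ (rank_lt_pair_right _ _) hφ, rfl⟩

theorem fin_eq (n : Ordinal.{0}) : {φ : Fm | (code φ).rank = n}.Finite := by
  by_cases hn : n < ω
  · obtain ⟨N, rfl⟩ := Ordinal.lt_omega0.1 hn
    refine (fin_lt (N + 1)).subset ?_
    intro φ hφ
    simp only [Set.mem_ofPred_eq] at hφ ⊢
    rw [hφ]
    exact_mod_cast Nat.lt_succ_self N
  · refine Set.Finite.subset Set.finite_empty ?_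
    intro φ hφ
    simp only [Set.mem_ofPred_eq] at hφ
    exact absurd (hφ ▸ rank_code_lt φ) hn

/-! ### definability -/

theorem dfn_rank_nat (n : ℕ) : ∀ i : ℕ, Dfn (fun v => (v i).rank = n) := by
  induction n with
  | zero =>
    intro i
    exact (dfn_rank_zero i).congr fun v => by rw [Nat.cast_zero]
  | succ n ih =>
    intro i
    have h1 : Dfn (fun v => ∃ a : Ordinal.{0}, a = n ∧ ∀ b : Ordinal.{0},
        b < (v i).rank ↔ b ≤ a) := by
      refine Dfn.exO (Q := fun a v => a = n ∧ ∀ b : Ordinal.{0}, b < (v i).rank ↔ b ≤ a) ?_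
      refine (ih 0).and ?_
      refine Dfn.allO (Q := fun b v => b < (v (i + 1)).rank ↔ b ≤ (v 0).rank) ?_
      exact (dfn_rank_lt 0 (i + 2)).iff (dfn_rank_le 0 1)
    refine h1.congr fun v => ?_
    rw [Nat.cast_succ]
    constructor
    · rintro ⟨a, rfl, h⟩
      refine le_antisymm ?_ ?_
      · by_contra hlt
        rw [not_le] at hlt
        have := (h _).1 hlt
        exact absurd this (not_le.mpr (Order.lt_add_one_iff.mpr le_rfl))
      · exact Order.add_one_le_of_lt ((h _).2 le_rfl)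
    · intro h
      refine ⟨n, rfl, fun b => ?_⟩
      rw [h]
      exact Order.lt_add_one_iff

theorem dfn_nz (n i : ℕ) : Dfn (fun v => v i = nz n) :=
  ((dfn_isOrd i).and (dfn_rank_nat n i)).congr fun v => by
    constructor
    · rintro ⟨h1, h2⟩
      rw [h1, h2]; rfl
    · intro h
      refine ⟨?_, ?_⟩
      · rw [h, rank_nz]; rfl
      · rw [h, rank_nz]

/-- `x` is a natural number -/
def IsN (x : ZFSet.{0}) : Prop := x = x.rank.toZFSet ∧ x.rank < ω

theorem isN_iff (x : ZFSet.{0}) : IsN x ↔ ∃ n : ℕ, x = nz n := by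
  constructor
  · rintro ⟨h1, h2⟩
    obtain ⟨n, hn⟩ := Ordinal.lt_omega0.1 h2
    exact ⟨n, by rw [h1, hn]; rfl⟩
  · rintro ⟨n, rfl⟩
    refine ⟨by rw [rank_nz]; rfl, ?_⟩
    rw [rank_nz]
    exact Ordinal.natCast_lt_omega0 n

theorem dfn_isN (i : ℕ) : Dfn (fun v => IsN (v i)) := (dfn_isOrd i).and (dfn_lt_omega i)

/-- `pair (nz n) x ∈ C` -/
theorem dfn_tag (n i k : ℕ) : Dfn (fun v => ZFSet.pair (nz n) (v i) ∈ v k) :=
  (Dfn.ex (Q := fun z v => z = nz n ∧ ZFSet.pair z (v i) ∈ v k)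
    ((dfn_nz n 0).and (dfn_pair_mem 0 (i + 1) (k + 1)))).congr fun v => by simp

/-- `pair (nz n) (pair x y) ∈ C` -/
theorem dfn_tag2 (n i j k : ℕ) :
    Dfn (fun v => ZFSet.pair (nz n) (ZFSet.pair (v i) (v j)) ∈ v k) :=
  (Dfn.ex (Q := fun z v => z = ZFSet.pair (v i) (v j) ∧ ZFSet.pair (nz n) z ∈ v k)
    ((dfn_pair 0 (i + 1) (j + 1)).and (dfn_tag n 0 (k + 1)))).congr fun v => by simp

/-- closed under the construction of codes -/
def Cl (C : ZFSet.{0}) : Prop :=
  (∀ x, IsN x → ∀ y, IsN y → ZFSet.pair (nz 0) (ZFSet.pair x y) ∈ C ∧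
    ZFSet.pair (nz 1) (ZFSet.pair x y) ∈ C) ∧
  (∀ c, c ∈ C → ZFSet.pair (nz 2) c ∈ C ∧ ZFSet.pair (nz 4) c ∈ C) ∧
  (∀ c, c ∈ C → ∀ d, d ∈ C → ZFSet.pair (nz 3) (ZFSet.pair c d) ∈ C)

theorem dfn_cl (k : ℕ) : Dfn (fun v => Cl (v k)) := by
  refine Dfn.and ?_ (Dfn.and ?_ ?_)
  · refine Dfn.all (Q := fun x v => IsN x → ∀ y, IsN y →
      ZFSet.pair (nz 0) (ZFSet.pair x y) ∈ v k ∧ ZFSet.pair (nz 1) (ZFSet.pair x y) ∈ v k) ?_
    refine (dfn_isN 0).imp ?_
    refine Dfn.all (Q := fun y v => IsN y → ZFSet.pair (nz 0) (ZFSet.pair (v 0) y) ∈ v (k + 1) ∧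
      ZFSet.pair (nz 1) (ZFSet.pair (v 0) y) ∈ v (k + 1)) ?_
    exact (dfn_isN 0).imp ((dfn_tag2 0 1 0 (k + 2)).and (dfn_tag2 1 1 0 (k + 2)))
  · refine Dfn.all (Q := fun c v => c ∈ v k → ZFSet.pair (nz 2) c ∈ v k ∧
      ZFSet.pair (nz 4) c ∈ v k) ?_
    exact (dfn_mem 0 (k + 1)).imp ((dfn_tag 2 0 (k + 1)).and (dfn_tag 4 0 (k + 1)))
  · refine Dfn.all (Q := fun c v => c ∈ v k → ∀ d, d ∈ v k →
      ZFSet.pair (nz 3) (ZFSet.pair c d) ∈ v k) ?_
    refine (dfn_mem 0 (k + 1)).imp ?_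
    refine Dfn.all (Q := fun d v => d ∈ v (k + 1) →
      ZFSet.pair (nz 3) (ZFSet.pair (v 0) d) ∈ v (k + 1)) ?_
    exact (dfn_mem 0 (k + 2)).imp (dfn_tag2 3 1 0 (k + 2))

theorem isCode_iff (x : ZFSet.{0}) : (∃ φ, code φ = x) ↔ ∀ C, Cl C → x ∈ C := by
  constructor
  · rintro ⟨φ, rfl⟩ C ⟨h1, h2, h3⟩
    induction φ with
    | mem i j => exact (h1 _ ((isN_iff _).2 ⟨i, rfl⟩) _ ((isN_iff _).2 ⟨j, rfl⟩)).1
    | eq i j => exact (h1 _ ((isN_iff _).2 ⟨i, rfl⟩) _ ((isN_iff _).2 ⟨j, rfl⟩)).2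
    | neg φ ih => exact (h2 _ ih).1
    | and φ ψ ih1 ih2 => exact h3 _ ih1 _ ih2
    | all φ ih => exact (h2 _ ih).2
  · intro h
    have h1 := h (ZFSet.range code) ⟨?_, ?_, ?_⟩
    · rw [ZFSet.mem_range] at h1
      exact h1
    · intro x hx y hy
      obtain ⟨i, rfl⟩ := (isN_iff _).1 hx
      obtain ⟨j, rfl⟩ := (isN_iff _).1 hy
      rw [ZFSet.mem_range, ZFSet.mem_range]
      exact ⟨⟨.mem i j, rfl⟩, ⟨.eq i j, rfl⟩⟩
    · intro c hc
      rw [ZFSet.mem_range] at hc
      obtain ⟨φ, rfl⟩ := hc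
      rw [ZFSet.mem_range, ZFSet.mem_range]
      exact ⟨⟨.neg φ, rfl⟩, ⟨.all φ, rfl⟩⟩
    · intro c hc d hd
      rw [ZFSet.mem_range] at hc hd
      obtain ⟨φ, rfl⟩ := hc
      obtain ⟨ψ, rfl⟩ := hd
      rw [ZFSet.mem_range]
      exact ⟨.and φ ψ, rfl⟩

theorem tc : StTC := by
  refine ⟨code_inj, fin_eq, dfn_nz, fun i => ?_⟩
  refine (Dfn.all (Q := fun C v => Cl C → v i ∈ C) ((dfn_cl 0).imp (dfn_mem (i + 1) 0))).congr
    fun v => (isCode_iff (v i)).symm

end Pool.Agent.Helper77.HM.TC
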